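import Pool.Agent.Helper96.BC.St

/-! # BC, module C13: quadratic twists over varying fields -/

set_option autoImplicit false

namespace Pool.Agent.Helper26.BC

open Pool.Agent.Helper95.TT Pool.Agent.Helper96.BC
open NumberField IsDedekindDomain Polynomial Filter Topology
open scoped Classical TensorProduct

noncomputable section

private theorem q_two {k : Type} [Field k] [NumberField k] (v : Pr k) : (2 : ℝ) ≤ q v := by
  have h0 : Ideal.absNorm v.asIdeal ≠ 0 := by
    intro h
    exact v.ne_bot (Ideal.absNorm_eq_zero_iff.mp h)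
  have h1 : Ideal.absNorm v.asIdeal ≠ 1 := by
    intro h
    exact v.isPrime.ne_top (Ideal.absNorm_eq_one_iff.mp h)
  have h2 : 2 ≤ q v := by
    unfold q
    omega
  exact_mod_cast h2

private theorem wt_nonneg {k : Type} [Field k] [NumberField k] (s : ℝ) (v : Pr k) : 0 ≤ wt s v := by
  unfold wt
  have h2 := q_two v
  exact mul_nonneg (Real.log_nonneg (by linarith)) (Real.rpow_nonneg (by linarith) _)

private theorem wt_cont {k : Type} [Field k] [NumberField k] (v : Pr k) :
    Continuous (fun s : ℝ => wt s v) := by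
  unfold wt
  have h2 := q_two v
  exact continuous_const.mul
    (continuous_const.rpow continuous_neg (fun s => Or.inl (by linarith)))

private theorem chi_abs {k : Type} [Field k] [NumberField k] (D : 𝓞 k) (v : Pr k) :
    |chi D v| ≤ 1 := by
  unfold chi
  split_ifs <;> simp

/-- bounded coefficients times the weight are summable -/
private theorem sumb (hA2 : StA2) {k : Type} [Field k] [NumberField k] (a : Pr k → ℝ) (A : ℝ)
    (ha : ∀ v, |a v| ≤ A) (s : ℝ) (hs : 1 < s) : Summable (fun v => a v * wt s v) := by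
  have h1 := (hA2 k).1 s hs
  refine Summable.of_norm_bounded (h1.mul_left A) ?_
  intro v
  rw [Real.norm_eq_abs, abs_mul, abs_of_nonneg (wt_nonneg s v)]
  exact mul_le_mul_of_nonneg_right (ha v) (wt_nonneg s v)

/-- a finite set of primes does not contribute -/
private theorem fin0 {k : Type} [Field k] [NumberField k] (T : Finset (Pr k)) (a : Pr k → ℝ) :
    Tendsto (fun s : ℝ => ∑ v ∈ T, (s - 1) * (a v * wt s v)) (𝓝[>] 1) (𝓝 0) := by
  have h2 : Continuous (fun s : ℝ => ∑ v ∈ T, (s - 1) * (a v * wt s v)) := by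
    refine continuous_finset_sum _ ?_
    intro v _
    exact (continuous_id.sub continuous_const).mul (continuous_const.mul (wt_cont v))
  have h3 := h2.tendsto 1
  simp only [sub_self, zero_mul, Finset.sum_const_zero] at h3
  exact h3.mono_left nhdsWithin_le_nhds

/-- the core estimate for one field -/
private theorem core (hA2 : StA2) (hA5 : StA5) (hC1 : StC1) (hC2 : StC2) (hC6 : StC6)
    (hC9 : StC9) (hWB : StWB) (k K : Type) [Field k] [NumberField k] [Field K] [NumberField K]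
    [Algebra k K] (f g : (𝓞 k)[X]) (hf : 1 ≤ f.natDegree) (hg : 1 ≤ g.natDegree) (B : ℝ)
    (hB : B = (2 * ((f.natDegree - 1) / 2 : ℕ) * (2 * ((g.natDegree - 1) / 2 : ℕ)) : ℝ))
    (E : 𝓞 K) (R : Set (Pr K)) (hR : R.Finite)
    (hRb : ∀ w, Bad (f.map (algebraMap (𝓞 k) (𝓞 K))) w ∨
      Bad (g.map (algebraMap (𝓞 k) (𝓞 K))) w ∨ E ∈ w.asIdeal → w ∈ R)
    (c : Pr k → ℝ)
    (hcdef : ∀ v, |(tr 1 f v : ℝ) * tr 1 g v / q v| ≤ B → c v = (tr 1 f v : ℝ) * tr 1 g v / q v)
    (hc : ∀ v, |c v| ≤ B) :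
    (∀ s : ℝ, 2 < s → Summable (fun w : Pr K => if w ∈ R then 0 else
      (bb E (f.map (algebraMap (𝓞 k) (𝓞 K))) (g.map (algebraMap (𝓞 k) (𝓞 K))) w : ℝ) *
        Real.log (q w) * (q w : ℝ) ^ (-s))) ∧
    Tendsto (fun s : ℝ => (s - 1) * FK R (fun w => (bb E (f.map (algebraMap (𝓞 k) (𝓞 K)))
        (g.map (algebraMap (𝓞 k) (𝓞 K))) w : ℝ)) (s + 1) - 2 -
        ∑' v : Pr k, (s - 1) * wt s v * (c v * S1 (chi E) v)) (𝓝[>] 1) (𝓝 0) := by
  have hB0 : 0 ≤ B := by rw [hB]; positivity
  have hinj : Function.Injective (algebraMap (𝓞 k) (𝓞 K)) := FaithfulSMul.algebraMap_injective _ _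
  set F := f.map (algebraMap (𝓞 k) (𝓞 K)) with hF
  set G := g.map (algebraMap (𝓞 k) (𝓞 K)) with hG
  have hFd : F.natDegree = f.natDegree := natDegree_map_eq_of_injective hinj f
  have hGd : G.natDegree = g.natDegree := natDegree_map_eq_of_injective hinj g
  have hgood : ∀ w, w ∉ R → |(tr 1 F w : ℝ) * tr 1 G w / q w| ≤ B := by
    intro w hw
    have h1 : ¬ Bad F w := fun h => hw (hRb w (Or.inl h))
    have h2 : ¬ Bad G w := fun h => hw (hRb w (Or.inr (Or.inl h)))
    have h3 := hWB K w F (by rw [hFd]; exact hf) h1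
    have h4 := hWB K w G (by rw [hGd]; exact hg) h2
    rw [hFd] at h3
    rw [hGd] at h4
    have hq := q_two w
    rw [abs_div, abs_mul, abs_of_nonneg (by linarith : (0 : ℝ) ≤ q w), div_le_iff₀ (by linarith)]
    have h5 : √(q w : ℝ) * √(q w : ℝ) = q w := Real.mul_self_sqrt (by linarith)
    calc |(tr 1 F w : ℝ)| * |(tr 1 G w : ℝ)|
        ≤ (2 * ((f.natDegree - 1) / 2 : ℕ) * √(q w)) * (2 * ((g.natDegree - 1) / 2 : ℕ) * √(q w)) :=
          mul_le_mul h3 h4 (abs_nonneg _) (le_trans (abs_nonneg _) h3)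
      _ = B * (√(q w : ℝ) * √(q w : ℝ)) := by rw [hB]; ring
      _ = _ := by rw [h5]
  set β : Pr K → ℝ := fun w => if w ∈ R then 0 else
    2 + chi E w * ((tr 1 F w : ℝ) * tr 1 G w / q w) with hβ
  have hβb : ∀ w, |β w| ≤ 2 + B := by
    intro w
    simp only [hβ]
    split_ifs with hw
    · simp only [abs_zero]
      linarith
    · have h1 := hgood w hw
      have h2 : |chi E w * ((tr 1 F w : ℝ) * tr 1 G w / q w)| ≤ 1 * B := by
        rw [abs_mul]
        exact mul_le_mul (chi_abs E w) h1 (abs_nonneg _) (by norm_num)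
      calc |2 + chi E w * ((tr 1 F w : ℝ) * tr 1 G w / q w)|
          ≤ |(2 : ℝ)| + |chi E w * ((tr 1 F w : ℝ) * tr 1 G w / q w)| := abs_add_le _ _
        _ ≤ 2 + B := by
          rw [abs_of_pos (by norm_num : (0 : ℝ) < 2)]
          linarith
  have hterm : ∀ (s : ℝ) (w : Pr K), (if w ∈ R then 0 else
      (bb E F G w : ℝ) * Real.log (q w) * (q w : ℝ) ^ (-s)) = β w * wt (s - 1) w := by
    intro s w
    simp only [hβ]
    split_ifs with hw
    · simp
    · have h20 : (2 : 𝓞 K) ∉ w.asIdeal := fun h => hw (hRb w (Or.inl (Or.inl h)))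
      have hE : E ∉ w.asIdeal := fun h => hw (hRb w (Or.inr (Or.inr h)))
      have h5 := (hA5 K w h20).2 E F hE
      have h6 : (bb E F G w : ℝ) = 2 * q w + chi E w * tr 1 F w * tr 1 G w := by
        unfold bb
        push_cast
        rw [h5]
      have hq := q_two w
      have h7 : (q w : ℝ) ^ (-(s - 1)) = q w * (q w : ℝ) ^ (-s) := by
        have : -(s - 1) = 1 + -s := by ring
        rw [this, Real.rpow_add (by linarith), Real.rpow_one]
      rw [h6]
      unfold wt
      rw [h7]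
      field_simp
  have hC2b := hC2 k K β (2 + B) hβb
  refine ⟨?_, ?_⟩
  · intro s hs
    have h1 := (hC2b.2.1 (s - 1) (by linarith)).1
    simp_rw [hterm s]
    exact h1
  · -- the finite exceptional set
    have hpi : ∀ w : Pr K, ∃ v : Pr k, Above w v := fun w => ((hC1 k K).1 w).exists
    choose pi hpi using hpi
    have hTf : (pi '' R).Finite := hR.image pi
    have hT : ∀ v, v ∉ pi '' R → ∀ w : Pr K, Above w v → w ∉ R := by
      intro v hv w hw hwR
      apply hv
      refine ⟨w, hwR, ?_⟩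
      exact ((hC1 k K).1 w).unique (hpi w) hw
    set φ : Pr k → ℝ := S1 (chi E) with hφ
    have hfin : ∀ v : Pr k, Finite {w : Pr K // Deg1 w v} := by
      intro v
      have h1 := ((hC1 k K).2.2.1 v).1
      have h2 : {w : Pr K | Deg1 w v}.Finite := h1.subset (fun w hw => hw.1)
      exact h2.to_subtype
    have hS1 : ∀ v, v ∉ pi '' R → S1 β v = 2 * (N1 K v : ℝ) + c v * φ v := by
      intro v hv
      haveI := hfin v
      haveI := Fintype.ofFinite {w : Pr K // Deg1 w v}
      simp only [hφ, S1]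
      rw [finsum_eq_sum_of_fintype, finsum_eq_sum_of_fintype]
      have h1 : (N1 K v : ℝ) = ∑ _w : {w : Pr K // Deg1 w v}, (1 : ℝ) := by
        simp [N1, Nat.card_eq_fintype_card]
      rw [h1, Finset.mul_sum, Finset.mul_sum, ← Finset.sum_add_distrib]
      refine Finset.sum_congr rfl ?_
      intro w _
      have hwR : (w : Pr K) ∉ R := hT v hv w.1 w.2.1
      have h9 := (hC9 k K w.1 v w.2).1 1
      have h9f : tr 1 F w.1 = tr 1 f v := by
        have := h9 f
        rwa [map_one] at this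
      have h9g : tr 1 G w.1 = tr 1 g v := by
        have := h9 g
        rwa [map_one] at this
      have hq : q w.1 = q v := w.2.2
      have hg1 := hgood w.1 hwR
      rw [h9f, h9g, hq] at hg1
      have hc1 := hcdef v hg1
      simp only [hβ, if_neg hwR, h9f, h9g, hq]
      rw [hc1]
      ring
    obtain ⟨M, hM⟩ := hC2b.2.2
    have hφC := hC2 k K (chi E) 1 (chi_abs E)
    have hφb : ∀ v, |φ v| ≤ (Module.finrank k K : ℝ) := by
      intro v
      have h1 := (hφC.1 v).1
      have h2 : (N1 K v : ℝ) ≤ (Module.finrank k K : ℝ) := by exact_mod_cast (hφC.1 v).2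
      rw [one_mul] at h1
      exact le_trans h1 h2
    have hNb : ∀ v : Pr k, |(N1 K v : ℝ)| ≤ (Module.finrank k K : ℝ) := by
      intro v
      rw [abs_of_nonneg (Nat.cast_nonneg _)]
      exact_mod_cast (hφC.1 v).2
    have hcφb : ∀ v, |c v * φ v| ≤ B * (Module.finrank k K : ℝ) := by
      intro v
      rw [abs_mul]
      exact mul_le_mul (hc v) (hφb v) (abs_nonneg _) hB0
    -- limits
    have hL1 : Tendsto (fun s : ℝ => (s - 1) *
        (∑' w : Pr K, β w * wt s w - ∑' v : Pr k, S1 β v * wt s v)) (𝓝[>] 1) (𝓝 0) := by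
      have h1 : Tendsto (fun s : ℝ => (s - 1) * |M|) (𝓝[>] 1) (𝓝 0) := by
        have h2 : Continuous (fun s : ℝ => (s - 1) * |M|) := by fun_prop
        have h3 := h2.tendsto 1
        simp only [sub_self, zero_mul] at h3
        exact h3.mono_left nhdsWithin_le_nhds
      refine squeeze_zero_norm' ?_ h1
      filter_upwards [self_mem_nhdsWithin] with s hs
      have hs1 : (1 : ℝ) < s := hs
      rw [Real.norm_eq_abs, abs_mul, abs_of_pos (by linarith : (0 : ℝ) < s - 1)]
      exact mul_le_mul_of_nonneg_left (le_trans (hM s hs1) (le_abs_self M)) (by linarith)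
    have hL2 := fin0 hTf.toFinset (fun v => S1 β v - (2 * (N1 K v : ℝ) + c v * φ v))
    have hL3 := ((hC6 k K).1.sub_const 1).const_mul 2
    have hL := (hL1.add hL2).add hL3
    simp only [sub_self, mul_zero, add_zero] at hL
    refine hL.congr' ?_
    filter_upwards [self_mem_nhdsWithin] with s hs
    have hs1 : (1 : ℝ) < s := hs
    have hFK : FK R (fun w => (bb E F G w : ℝ)) (s + 1) = ∑' w : Pr K, β w * wt s w := by
      unfold FK
      refine tsum_congr ?_
      intro w
      rw [hterm (s + 1) w]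
      have : s + 1 - 1 = s := by ring
      rw [this]
    rw [hFK]
    have hsA : Summable (fun v : Pr k => S1 β v * wt s v) := (hC2b.2.1 s hs1).2
    have hsN : Summable (fun v : Pr k => (N1 K v : ℝ) * wt s v) :=
      sumb hA2 (fun v => (N1 K v : ℝ)) _ hNb s hs1
    have hsC : Summable (fun v : Pr k => (c v * φ v) * wt s v) :=
      sumb hA2 (fun v => c v * φ v) _ hcφb s hs1
    have hT2 : ∑ v ∈ hTf.toFinset, (s - 1) * ((S1 β v - (2 * (N1 K v : ℝ) + c v * φ v)) * wt s v)
        = (s - 1) * (∑' v : Pr k, S1 β v * wt s v - 2 * ∑' v : Pr k, (N1 K v : ℝ) * wt s v -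
          ∑' v : Pr k, (c v * φ v) * wt s v) := by
      rw [← Finset.mul_sum]
      congr 1
      rw [← tsum_mul_left, ← Summable.tsum_sub hsA (hsN.mul_left 2),
        ← Summable.tsum_sub (hsA.sub (hsN.mul_left 2)) hsC]
      rw [tsum_eq_sum (s := hTf.toFinset)]
      · refine Finset.sum_congr rfl ?_
        intro v _
        ring
      · intro v hv
        have hv' : v ∉ pi '' R := fun h => hv (hTf.mem_toFinset.mpr h)
        rw [hS1 v hv']
        ring
    have hy : ∑' v : Pr k, (s - 1) * wt s v * (c v * S1 (chi E) v) =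
        (s - 1) * ∑' v : Pr k, (c v * φ v) * wt s v := by
      rw [← tsum_mul_left]
      refine tsum_congr ?_
      intro v
      simp only [hφ]
      ring
    rw [hT2, hy]
    ring

theorem hC13 (hA2 : StA2) (hA5 : StA5) (hC1 : StC1) (hC2 : StC2) (hC6 : StC6) (hC7 : StC7)
    (hC9 : StC9) (hC12 : StC12) (hWB : StWB) : StC13 := by
  intro k _ _ f g hf hg d ι _ K _ _ _ E R hRf hfr hij hRb
  set B : ℝ := (2 * ((f.natDegree - 1) / 2 : ℕ) * (2 * ((g.natDegree - 1) / 2 : ℕ)) : ℝ) with hB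
  have hB0 : 0 ≤ B := by rw [hB]; positivity
  set c : Pr k → ℝ := fun v => if |(tr 1 f v : ℝ) * tr 1 g v / q v| ≤ B then
    (tr 1 f v : ℝ) * tr 1 g v / q v else 0 with hc
  have hc1 : ∀ v, |(tr 1 f v : ℝ) * tr 1 g v / q v| ≤ B →
      c v = (tr 1 f v : ℝ) * tr 1 g v / q v := by
    intro v hv
    simp only [hc, if_pos hv]
  have hc2 : ∀ v, |c v| ≤ B := by
    intro v
    simp only [hc]
    split_ifs with h
    · exact h
    · simpa using hB0
  have hcore := fun i => core hA2 hA5 hC1 hC2 hC6 hC9 hWB k (K i) f g hf hg B hB (E i) (R i)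
    (hRf i) (hRb i) c hc1 hc2
  refine ⟨fun i => (hcore i).1, ?_⟩
  intro ε hε
  set w : ℝ → Pr k → ℝ := fun s v => (s - 1) * wt s v with hw
  set φ : ι → Pr k → ℝ := fun i => S1 (chi (E i)) with hφ
  have hφ1 : ∀ i v, |φ i v| ≤ (N1 (K i) v : ℝ) ∧ (N1 (K i) v : ℝ) ≤ d := by
    intro i v
    have h := (hC2 k (K i) (chi (E i)) 1 (chi_abs (E i))).1 v
    rw [one_mul] at h
    refine ⟨h.1, ?_⟩
    exact_mod_cast le_trans h.2 (hfr i)
  have hev : ∀ᶠ s : ℝ in 𝓝[>] 1, (∀ v, 0 ≤ w s v) ∧ Summable (w s) := by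
    filter_upwards [self_mem_nhdsWithin] with s hs
    have hs1 : (1 : ℝ) < s := hs
    refine ⟨fun v => mul_nonneg (by linarith) (wt_nonneg s v), ?_⟩
    exact ((hA2 k).1 s hs1).mul_left (s - 1)
  have hone : Tendsto (fun s => ∑' v, w s v) (𝓝[>] 1) (𝓝 1) := by
    have h1 := (hA2 k).2
    refine h1.congr ?_
    intro s
    rw [← tsum_mul_left]
  have hd0 : (0 : ℝ) ≤ d := Nat.cast_nonneg d
  have hφd : ∀ i v, |φ i v| ≤ (d : ℝ) := fun i v => le_trans (hφ1 i v).1 (hφ1 i v).2
  have horth : ∀ i j, i ≠ j →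
      Tendsto (fun s => ∑' v, w s v * (φ i v * φ j v)) (𝓝[>] 1) (𝓝 0) := by
    intro i j h
    have h1 := hC12 k (K i) (K j) (E i) (E j) (hij i j h).1 (hij i j h).2
    refine h1.congr ?_
    intro s
    rw [← tsum_mul_left]
    refine tsum_congr ?_
    intro v
    simp only [hw, hφ]
    ring
  have hnorm : ∀ i, ∀ δ > 0, ∀ᶠ s : ℝ in 𝓝[>] 1, ∑' v, w s v * φ i v ^ 2 ≤ d + δ := by
    intro i δ hδ
    have h1 := (hC6 k (K i)).1.const_mul (d : ℝ)
    rw [mul_one] at h1
    have h2 : ∀ᶠ s : ℝ in 𝓝[>] 1,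
        (d : ℝ) * ((s - 1) * ∑' v : Pr k, (N1 (K i) v : ℝ) * wt s v) < d + δ :=
      h1.eventually_lt_const (by linarith)
    filter_upwards [h2, self_mem_nhdsWithin] with s h3 hs
    have hs1 : (1 : ℝ) < s := hs
    refine le_trans ?_ h3.le
    rw [← tsum_mul_left, ← tsum_mul_left]
    have hle : ∀ v, w s v * φ i v ^ 2 ≤ (d : ℝ) * ((s - 1) * ((N1 (K i) v : ℝ) * wt s v)) := by
      intro v
      have h4 := hφ1 i v
      have h5 : φ i v ^ 2 ≤ (d : ℝ) * (N1 (K i) v : ℝ) := by
        rw [← sq_abs]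
        have h6 : 0 ≤ |φ i v| := abs_nonneg _
        nlinarith [h4.1, h4.2]
      have h7 : 0 ≤ w s v := mul_nonneg (by linarith) (wt_nonneg s v)
      calc w s v * φ i v ^ 2 ≤ w s v * ((d : ℝ) * (N1 (K i) v : ℝ)) :=
            mul_le_mul_of_nonneg_left h5 h7
        _ = _ := by simp only [hw]; ring
    have hNb : ∀ v : Pr k, |(N1 (K i) v : ℝ)| ≤ (d : ℝ) := by
      intro v
      rw [abs_of_nonneg (Nat.cast_nonneg _)]
      exact (hφ1 i v).2
    have hs2 : Summable (fun v : Pr k => (d : ℝ) * ((s - 1) * ((N1 (K i) v : ℝ) * wt s v))) :=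
      ((sumb hA2 (fun v => (N1 (K i) v : ℝ)) _ hNb s hs1).mul_left (s - 1)).mul_left (d : ℝ)
    have hs3 : Summable (fun v : Pr k => w s v * φ i v ^ 2) := by
      refine Summable.of_nonneg_of_le ?_ hle hs2
      intro v
      exact mul_nonneg (mul_nonneg (by linarith) (wt_nonneg s v)) (sq_nonneg _)
    exact Summable.tsum_le_tsum hle hs3 hs2
  have h7 := hC7 (Pr k) ι w c φ B d d hd0 hev hone hc2 hφd horth hnorm (ε / 2) (by linarith)
  set Y : ι → ℝ → ℝ := fun i s => ∑' v, w s v * (c v * φ i v) with hY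
  set X : ι → ℝ → ℝ := fun i s => (s - 1) * FK (R i) (fun w => (bb (E i)
    (f.map (algebraMap (𝓞 k) (𝓞 (K i)))) (g.map (algebraMap (𝓞 k) (𝓞 (K i)))) w : ℝ)) (s + 1) -
    2 with hX
  set Er : ι → ℝ → ℝ := fun i s => X i s - Y i s with hEr
  have hEt : ∀ i, Tendsto (Er i) (𝓝[>] 1) (𝓝 0) := fun i => (hcore i).2
  set M : ℝ := √(d * B ^ 2 + ε / 2) with hM
  have hM0 : 0 ≤ M := Real.sqrt_nonneg _
  have hMM : M ^ 2 = d * B ^ 2 + ε / 2 := Real.sq_sqrt (by positivity)
  have hlast : Tendsto (fun s => ∑ i, (2 * M * |Er i s| + Er i s ^ 2)) (𝓝[>] 1) (𝓝 0) := by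
    have h1 : ∀ i ∈ (Finset.univ : Finset ι), Tendsto (fun s => 2 * M * |Er i s| + Er i s ^ 2)
        (𝓝[>] 1) (𝓝 0) := by
      intro i _
      have h2 := ((hEt i).abs.const_mul (2 * M)).add ((hEt i).pow 2)
      simp only [abs_zero, mul_zero, ne_eq, OfNat.ofNat_ne_zero, not_false_eq_true, zero_pow,
        add_zero] at h2
      exact h2
    have h3 := tendsto_finset_sum _ h1
    simpa using h3
  have hlast' : ∀ᶠ s : ℝ in 𝓝[>] 1, ∑ i, (2 * M * |Er i s| + Er i s ^ 2) < ε / 2 :=
    hlast.eventually_lt_const (by linarith)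
  have hmain : ∀ᶠ s : ℝ in 𝓝[>] 1, ∑ i, X i s ^ 2 ≤ d * B ^ 2 + ε := by
    filter_upwards [h7, hlast'] with s h1 h2
    have h1' : ∑ i, Y i s ^ 2 ≤ d * B ^ 2 + ε / 2 := h1
    have h3 : ∀ i, |Y i s| ≤ M := by
      intro i
      have h4 : Y i s ^ 2 ≤ ∑ i, Y i s ^ 2 :=
        Finset.single_le_sum (f := fun i => Y i s ^ 2) (fun _ _ => sq_nonneg _)
          (Finset.mem_univ i)
      exact abs_le_of_sq_le_sq (by rw [hMM]; linarith) hM0
    have h5 : ∑ i, X i s ^ 2 ≤ ∑ i, (Y i s ^ 2 + (2 * M * |Er i s| + Er i s ^ 2)) := by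
      refine Finset.sum_le_sum ?_
      intro i _
      have hXe : X i s = Y i s + Er i s := by simp only [hEr]; ring
      have h6 : Y i s * Er i s ≤ M * |Er i s| := by
        calc Y i s * Er i s ≤ |Y i s * Er i s| := le_abs_self _
          _ = |Y i s| * |Er i s| := abs_mul _ _
          _ ≤ M * |Er i s| := mul_le_mul_of_nonneg_right (h3 i) (abs_nonneg _)
      rw [hXe]
      nlinarith
    rw [Finset.sum_add_distrib] at h5
    linarith
  have htr : Tendsto (fun s : ℝ => s - 1) (𝓝[>] 2) (𝓝[>] 1) := by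
    refine tendsto_nhdsWithin_iff.mpr ⟨?_, ?_⟩
    · have h1 : Continuous (fun s : ℝ => s - 1) := by fun_prop
      have h2 := h1.tendsto 2
      have h3 : (2 : ℝ) - 1 = 1 := by norm_num
      rw [h3] at h2
      exact h2.mono_left nhdsWithin_le_nhds
    · filter_upwards [self_mem_nhdsWithin] with s hs
      have hs2 : (2 : ℝ) < s := hs
      have : (1 : ℝ) < s - 1 := by linarith
      exact this
  have hfin := htr.eventually hmain
  filter_upwards [hfin] with s h1
  have hkey : ∀ i, X i (s - 1) = (s - 2) * FK (R i) (fun w => (bb (E i)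
      (f.map (algebraMap (𝓞 k) (𝓞 (K i)))) (g.map (algebraMap (𝓞 k) (𝓞 (K i)))) w : ℝ)) s - 2 := by
    intro i
    simp only [hX]
    have h2 : s - 1 + 1 = s := by ring
    have h3 : s - 1 - 1 = s - 2 := by ring
    rw [h2, h3]
  simp_rw [hkey] at h1
  exact h1

end

end Pool.Agent.Helper26.BC
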